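import Pool.Agent.R944.SD.Stm
import Pool.Agent.R944.SD.Main
import Pool.Agent.R944.SD.G0
import Pool.Agent.R944.SD.G1
import Pool.Agent.R944.SD.G2
import Pool.Agent.R944.SD.G3
import Pool.Agent.R944.SD.G4
import Pool.Agent.R944.SD.G5
import Pool.Agent.R944.SD.P0
import Pool.Agent.R944.SD.P1
import Pool.Agent.R944.SD.P2
import Pool.Agent.R944.SD.P3
import Pool.Agent.R944.SD.T1
import Pool.Agent.R944.SD.T2
import Pool.Agent.R944.SD.T3
import Pool.Agent.R944.SD.K1
import Pool.Agent.R944.SD.K4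
import Pool.Agent.R944.SD.K5
import Pool.Agent.R944.SD.ST
import Pool.Agent.R944.SD.CN
import Pool.Agent.R944.SD.A1
import Pool.Agent.R944.SD.A2
import Pool.Agent.R944.SD.AC
import Pool.Agent.R944.SD.LIM

/-!
Preferential attachment from two independent uniform random seeds: the expected seed distance
tends to one.
-/

open scoped BigOperators Topology Classical
open Filter Pool.Agent.R944.SD

namespace Pool.Agent.Results.MP_b12932_pr.RandomSeeds

theorem g3 : S_G3 := G3.main T1.main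
theorem g1 : S_G1 := G1.main G0.main
theorem g2 : S_G2 := G2.main G0.main
theorem p0 : S_P0 := P0.main g3 G4.main
theorem p1 : S_P1 := P1.main g3 G4.main
theorem p2 : S_P2 := P2.main p0 G4.main p1
theorem p3 : S_P3 := P3.main G0.main g1 g2 g3 p0 p2
theorem cn : S_CN := CN.main K1.main K4.main K5.main.1 K5.main.2 ST.main
theorem t2 : S_T2 := T2.main T1.main
theorem ac : S_AC := AC.main g1 t2 T3.main K4.main cn A1.main A2.main

theorem result :
    (∀ (k : ℕ), 2 ≤ k → ∀ (S T : SimpleGraph (Fin k)), S.IsTree → T.IsTree →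
      Tendsto (fun m => tv m ⟨k, S⟩ ⟨k, T⟩) atTop (𝓝 (delta ⟨k, S⟩ ⟨k, T⟩))) ∧
    Tendsto avg atTop (𝓝 1) := by
  refine ⟨?_, assembly G5.main p0 p3 ac T3.main K4.main⟩
  intro k hk S T hS hT
  have hanti : Antitone (fun m => tv m ⟨k, S⟩ ⟨k, T⟩) :=
    antitone_nat_of_succ_le (LIM.main p0 G4.main k hk S T hS hT)
  exact tendsto_atTop_ciInf hanti ⟨0, by
    rintro x ⟨m, rfl⟩
    exact tv_nonneg p0 m ⟨k, S⟩ ⟨k, T⟩ hS hk hT hk⟩

end Pool.Agent.Results.MP_b12932_pr.RandomSeeds
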